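import Mathlib
import Pool.Agent.X207.PU5

namespace Pool.Agent.Results.MP_5b3ffa_mp.AveragePurityMonotone

open Matrix Pool.Agent.X207.PU

variable {n D : ℕ}

/-- The real Lie algebra `𝔤 = span_ℝ {i g₁, …, i g_D}` of skew-Hermitian operators. -/
noncomputable def lieAlg (g : Fin D → Matrix (Fin n) (Fin n) ℂ) :
    Submodule ℝ (Matrix (Fin n) (Fin n) ℂ) :=
  Submodule.span ℝ (Set.range fun j => Complex.I • g j)

/-- The complexified free operations: the set generated, under products, by the exponentials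
`exp (X + iY)` with `X, Y ∈ 𝔤` and by the nonzero complex scalars. (It is a group, as
`exp (-Z)` inverts `exp Z`.) -/
noncomputable def CFO (g : Fin D → Matrix (Fin n) (Fin n) ℂ) :
    Submonoid (Matrix (Fin n) (Fin n) ℂ) :=
  Submonoid.closure
    ({M | ∃ X ∈ lieAlg g, ∃ Y ∈ lieAlg g, M = NormedSpace.exp (X + Complex.I • Y)} ∪
      {M | ∃ z : ℂ, z ≠ 0 ∧ M = z • (1 : Matrix (Fin n) (Fin n) ℂ)})

/-- The purity `P(ρ) = (1/N) ∑ᵢ Tr[ρ gᵢ]²` (the traces are real for Hermitian `ρ`, `gᵢ`). -/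
noncomputable def purity (g : Fin D → Matrix (Fin n) (Fin n) ℂ) (N : ℝ)
    (ρ : Matrix (Fin n) (Fin n) ℂ) : ℝ :=
  (1 / N) * ∑ i, ((ρ * g i).trace).re ^ 2

/-- The rank-one operator `|φ⟩⟨φ|`. -/
def ketbra (φ : Fin n → ℂ) : Matrix (Fin n) (Fin n) ℂ := Matrix.vecMulVec φ (star φ)

/-- The probability `p = ⟨ψ| M† M |ψ⟩`. -/
noncomputable def prob (M : Matrix (Fin n) (Fin n) ℂ) (ψ : Fin n → ℂ) : ℝ :=
  (star ψ ⬝ᵥ ((Mᴴ * M) *ᵥ ψ)).re

/-- The output vector `M|ψ⟩ / √p`. -/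
noncomputable def post (M : Matrix (Fin n) (Fin n) ℂ) (ψ : Fin n → ℂ) : Fin n → ℂ :=
  (((1 / Real.sqrt (prob M ψ) : ℝ)) : ℂ) • (M *ᵥ ψ)

theorem trace_ketbra (A : Matrix (Fin n) (Fin n) ℂ) (v : Fin n → ℂ) :
    (ketbra v * A).trace = ev A v := by
  unfold ketbra ev
  rw [Matrix.trace_mul_comm]
  simp only [Matrix.trace, Matrix.diag, Matrix.mul_apply, Matrix.vecMulVec_apply, dotProduct,
    Matrix.mulVec, Pi.star_apply]
  refine Finset.sum_congr rfl fun i _ => ?_
  rw [Finset.mul_sum]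
  exact Finset.sum_congr rfl fun j _ => by ring

theorem ev_smul (A : Matrix (Fin n) (Fin n) ℂ) (r : ℝ) (v : Fin n → ℂ) :
    ev A ((r : ℂ) • v) = ((r ^ 2 : ℝ) : ℂ) * ev A v := by
  unfold ev
  rw [star_smul, smul_dotProduct, Matrix.mulVec_smul, dotProduct_smul, Complex.star_def,
    Complex.conj_ofReal, smul_eq_mul, smul_eq_mul]
  push_cast
  ring

theorem prob_eq (M : Matrix (Fin n) (Fin n) ℂ) (ψ : Fin n → ℂ) :
    prob M ψ = ∑ i, Complex.normSq ((M *ᵥ ψ) i) := by
  unfold prob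
  rw [← inner_mulVec, re_dot]

theorem lie_sub_span (g : Fin D → Matrix (Fin n) (Fin n) ℂ) {X : Matrix (Fin n) (Fin n) ℂ}
    (hX : X ∈ lieAlg g) : X ∈ Submodule.span ℂ (Set.range g) := by
  have h : lieAlg g ≤ (Submodule.span ℂ (Set.range g)).restrictScalars ℝ := by
    refine Submodule.span_le.2 ?_
    rintro _ ⟨j, rfl⟩
    exact (Submodule.span ℂ (Set.range g)).smul_mem _ (Submodule.subset_span ⟨j, rfl⟩)
  exact h hX

theorem span_star (g : Fin D → Matrix (Fin n) (Fin n) ℂ) (hherm : ∀ i, (g i).IsHermitian)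
    (A : Matrix (Fin n) (Fin n) ℂ) (hA : A ∈ Submodule.span ℂ (Set.range g)) :
    Aᴴ ∈ Submodule.span ℂ (Set.range g) := by
  induction hA using Submodule.span_induction with
  | mem x hx =>
    obtain ⟨j, rfl⟩ := hx
    rw [(hherm j).eq]
    exact Submodule.subset_span ⟨j, rfl⟩
  | zero => simp
  | add x y _ _ hx hy => rw [Matrix.conjTranspose_add]; exact Submodule.add_mem _ hx hy
  | smul a x _ hx => rw [Matrix.conjTranspose_smul]; exact Submodule.smul_mem _ _ hx

theorem span_ad (g : Fin D → Matrix (Fin n) (Fin n) ℂ)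
    (hlie : ∀ X ∈ lieAlg g, ∀ Y ∈ lieAlg g, X * Y - Y * X ∈ lieAlg g)
    (A : Matrix (Fin n) (Fin n) ℂ) (hA : A ∈ Submodule.span ℂ (Set.range g))
    (B : Matrix (Fin n) (Fin n) ℂ) (hB : B ∈ Submodule.span ℂ (Set.range g)) :
    A * B - B * A ∈ Submodule.span ℂ (Set.range g) := by
  have hbase : ∀ i j, g i * g j - g j * g i ∈ Submodule.span ℂ (Set.range g) := by
    intro i j
    have h := lie_sub_span g (hlie _ (Submodule.subset_span ⟨i, rfl⟩) _
      (Submodule.subset_span ⟨j, rfl⟩))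
    have e : Complex.I • g i * Complex.I • g j - Complex.I • g j * Complex.I • g i =
        (-1 : ℂ) • (g i * g j - g j * g i) := by
      rw [Matrix.smul_mul, Matrix.mul_smul, Matrix.smul_mul, Matrix.mul_smul, smul_smul, smul_smul,
        Complex.I_mul_I, smul_sub]
    have h2 := Submodule.smul_mem _ (-1 : ℂ) h
    simp only [e, smul_smul] at h2
    simpa using h2
  induction hA using Submodule.span_induction with
  | mem x hx =>
    obtain ⟨i, rfl⟩ := hx
    induction hB using Submodule.span_induction with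
    | mem y hy =>
      obtain ⟨j, rfl⟩ := hy
      exact hbase i j
    | zero => simp
    | add x y _ _ hx hy =>
      have := Submodule.add_mem _ hx hy
      rw [Matrix.mul_add, Matrix.add_mul]
      convert this using 1
      abel
    | smul a x _ hx =>
      have := Submodule.smul_mem _ a hx
      rw [Matrix.mul_smul, Matrix.smul_mul, ← smul_sub]
      exact this
  | zero => simp
  | add x y _ _ hx hy =>
    have := Submodule.add_mem _ hx hy
    rw [Matrix.mul_add, Matrix.add_mul]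
    convert this using 1
    abel
  | smul a x _ hx =>
    have := Submodule.smul_mem _ a hx
    rw [Matrix.mul_smul, Matrix.smul_mul, ← smul_sub]
    exact this

/-- Every complexified free operation is invertible and its conjugation preserves `ℂ𝔤`. -/
theorem cfo_conj (g : Fin D → Matrix (Fin n) (Fin n) ℂ)
    (hlie : ∀ X ∈ lieAlg g, ∀ Y ∈ lieAlg g, X * Y - Y * X ∈ lieAlg g)
    (M : Matrix (Fin n) (Fin n) ℂ) (hM : M ∈ CFO g) :
    IsUnit M ∧ (∀ A ∈ Submodule.span ℂ (Set.range g), M * A * M⁻¹ ∈ Submodule.span ℂ (Set.range g)) ∧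
      (∀ A ∈ Submodule.span ℂ (Set.range g), M⁻¹ * A * M ∈ Submodule.span ℂ (Set.range g)) := by
  unfold CFO at hM
  induction hM using Submonoid.closure_induction with
  | mem x hx =>
    rcases hx with ⟨X, hX, Y, hY, rfl⟩ | ⟨z, hz, rfl⟩
    · have hZ : X + Complex.I • Y ∈ Submodule.span ℂ (Set.range g) :=
        Submodule.add_mem _ (lie_sub_span g hX) (Submodule.smul_mem _ _ (lie_sub_span g hY))
      refine ⟨Matrix.isUnit_exp _, fun A hA => ?_, fun A hA => ?_⟩
      · exact mat_exp_conj_mem _ A _ (fun B hB => span_ad g hlie _ hZ _ hB) hA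
      · exact mat_exp_conj_mem' _ A _ (fun B hB => span_ad g hlie _ hZ _ hB) hA
    · have h1 : (z • (1 : Matrix (Fin n) (Fin n) ℂ)) * (z⁻¹ • 1) = 1 := by
        rw [Matrix.smul_mul, Matrix.mul_smul, smul_smul, mul_inv_cancel₀ hz, one_smul,
          Matrix.one_mul]
      have h2 : (z⁻¹ • (1 : Matrix (Fin n) (Fin n) ℂ)) * (z • 1) = 1 := by
        rw [Matrix.smul_mul, Matrix.mul_smul, smul_smul, inv_mul_cancel₀ hz, one_smul,
          Matrix.one_mul]
      have h3 : (z • (1 : Matrix (Fin n) (Fin n) ℂ))⁻¹ = z⁻¹ • 1 := Matrix.inv_eq_right_inv h1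
      refine ⟨isUnit_iff_exists.2 ⟨_, h1, h2⟩, fun A hA => ?_, fun A hA => ?_⟩
      · rw [h3, Matrix.smul_mul, Matrix.one_mul, Matrix.mul_smul, Matrix.mul_one, smul_smul,
          inv_mul_cancel₀ hz, one_smul]
        exact hA
      · rw [h3, Matrix.smul_mul, Matrix.one_mul, Matrix.mul_smul, Matrix.mul_one, smul_smul,
          mul_inv_cancel₀ hz, one_smul]
        exact hA
  | one => simp
  | mul x y _ _ hx hy =>
    refine ⟨hx.1.mul hy.1, fun A hA => ?_, fun A hA => ?_⟩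
    · have := hx.2.1 _ (hy.2.1 A hA)
      rw [Matrix.mul_inv_rev]
      simpa only [Matrix.mul_assoc] using this
    · have := hy.2.2 _ (hx.2.2 A hA)
      rw [Matrix.mul_inv_rev]
      simpa only [Matrix.mul_assoc] using this

theorem purity_ketbra (g : Fin D → Matrix (Fin n) (Fin n) ℂ) (N : ℝ) (v : Fin n → ℂ) :
    purity g N (ketbra v) = (1 / N) * ∑ i, (ev (g i) v).re ^ 2 := by
  unfold purity
  simp only [trace_ketbra]

theorem prob_mul_purity (g : Fin D → Matrix (Fin n) (Fin n) ℂ) (N : ℝ)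
    (M : Matrix (Fin n) (Fin n) ℂ) (ψ : Fin n → ℂ) (hp : 0 < prob M ψ) :
    prob M ψ * purity g N (ketbra (post M ψ)) =
      (1 / N) * ∑ i, (ev (g i) (M *ᵥ ψ)).re ^ 2 / prob M ψ := by
  rw [purity_ketbra]
  have h : ∀ i, (ev (g i) (post M ψ)).re = (ev (g i) (M *ᵥ ψ)).re / prob M ψ := by
    intro i
    unfold post
    rw [ev_smul, Complex.re_ofReal_mul, div_pow, Real.sq_sqrt hp.le]
    ring
  rw [Finset.sum_congr rfl fun i _ => by rw [h i], Finset.mul_sum, Finset.mul_sum, Finset.mul_sum]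
  refine Finset.sum_congr rfl fun i _ => ?_
  field_simp

/-- Q1, for every compact real Lie algebra `𝔤` of skew-Hermitian matrices. -/
theorem result {n D : ℕ} (g : Fin D → Matrix (Fin n) (Fin n) ℂ) (c N : ℝ) (hc : 0 < c)
    (hN : 0 < N) (hherm : ∀ i, (g i).IsHermitian)
    (horth : ∀ i j, (g i * g j).trace = if i = j then (c : ℂ) else 0)
    (hlie : ∀ X ∈ lieAlg g, ∀ Y ∈ lieAlg g, X * Y - Y * X ∈ lieAlg g)
    {ι : Type*} [Fintype ι] (M : ι → Matrix (Fin n) (Fin n) ℂ) (hM : ∀ k, M k ∈ CFO g)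
    (hsum : ∑ k, (M k)ᴴ * M k = 1) (ψ : Fin n → ℂ) (hψ : star ψ ⬝ᵥ ψ = 1) :
    (∀ k, 0 < prob (M k) ψ) ∧
      purity g N (ketbra ψ) ≤ ∑ k, prob (M k) ψ * purity g N (ketbra (post (M k) ψ)) := by
  classical
  set W := Submodule.span ℂ (Set.range g) with hW
  have hψ0 : ψ ≠ 0 := by
    rintro rfl
    simp at hψ
  have hp : ∀ k, 0 < prob (M k) ψ := by
    intro k
    have hu := (cfo_conj g hlie (M k) (hM k)).1
    have hne : M k *ᵥ ψ ≠ 0 := by
      intro h0
      apply hψ0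
      have hdet := (Matrix.isUnit_iff_isUnit_det _).1 hu
      have := congrArg (fun v => (M k)⁻¹ *ᵥ v) h0
      simpa [Matrix.mulVec_mulVec, Matrix.nonsing_inv_mul _ hdet] using this
    rw [prob_eq]
    obtain ⟨i, hi⟩ := Function.ne_iff.1 hne
    exact Finset.sum_pos' (fun j _ => Complex.normSq_nonneg _)
      ⟨i, Finset.mem_univ _, Complex.normSq_pos.2 hi⟩
  refine ⟨hp, ?_⟩
  -- the operator G
  set μ : Fin D → ℝ := fun i => (ev (g i) ψ).re with hμ
  set G : Matrix (Fin n) (Fin n) ℂ := ∑ i, (μ i : ℂ) • g i with hGdef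
  have hGW : G ∈ W := Submodule.sum_mem _ fun i _ =>
    Submodule.smul_mem _ _ (Submodule.subset_span ⟨i, rfl⟩)
  have hGH : G.IsHermitian := by
    rw [Matrix.IsHermitian, hGdef, Matrix.conjTranspose_sum]
    refine Finset.sum_congr rfl fun i _ => ?_
    rw [Matrix.conjTranspose_smul, (hherm i).eq, Complex.star_def, Complex.conj_ofReal]
  obtain ⟨V, d, hd, hV, hGV⟩ := sorted_spectral G hGH
  have hV' : V * Vᴴ = 1 := mul_eq_one_comm.1 hV
  have hdec : ∀ k, ∃ U T : Matrix (Fin n) (Fin n) ℂ, Uᴴ * U = 1 ∧ (∀ i j, j < i → T i j = 0) ∧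
      T = Uᴴ * (M k * V) ∧ U * dg d * Uᴴ ∈ W := by
    intro k
    obtain ⟨h1, h2, h3⟩ := cfo_conj g hlie (M k) (hM k)
    exact key_decomp W (span_star g hherm) (span_ad g hlie) V hV d hd (hGV ▸ hGW) (M k) h1 h2 h3
  choose U T hU hT hTU hGU using hdec
  have hU' : ∀ k, U k * (U k)ᴴ = 1 := fun k => mul_eq_one_comm.1 (hU k)
  have hz : ∀ k, ∃ z : Fin D → ℂ, ∑ i, z i • g i = U k * dg d * (U k)ᴴ := fun k =>
    (Submodule.mem_span_range_iff_exists_fun ℂ).1 (hGU k)
  choose z hz using hz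
  set m2 : ℝ := ∑ i, μ i ^ 2 with hm2
  have hnormG : c * m2 = ∑ i, d i ^ 2 := by
    have h1 := tr_lin g c hherm horth (fun i => (μ i : ℂ))
    rw [← hGdef] at h1
    have h2 := tr_dg V hV d
    rw [← hGV, h1] at h2
    have h3 : c * ∑ i, Complex.normSq (μ i : ℂ) = ∑ i, d i ^ 2 := by exact_mod_cast h2
    rw [← h3, hm2]
    congr 1
    exact Finset.sum_congr rfl fun i _ => by rw [Complex.normSq_ofReal]; ring
  have hnormz : ∀ k, ∑ i, Complex.normSq (z k i) = m2 := by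
    intro k
    have h1 := tr_lin g c hherm horth (z k)
    rw [hz k, tr_dg (U k) (hU k) d] at h1
    have h3 : ∑ i, d i ^ 2 = c * ∑ i, Complex.normSq (z k i) := by exact_mod_cast h1
    rw [← hnormG] at h3
    exact (mul_left_cancel₀ hc.ne' h3).symm
  have hTsum : ∑ k, (T k)ᴴ * T k = 1 := by
    have h1 : ∀ k, (T k)ᴴ * T k = Vᴴ * ((M k)ᴴ * M k) * V := by
      intro k
      rw [hTU k]
      calc ((U k)ᴴ * (M k * V))ᴴ * ((U k)ᴴ * (M k * V)) =
          Vᴴ * ((M k)ᴴ * (U k * (U k)ᴴ) * M k) * V := by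
            simp only [Matrix.conjTranspose_mul, Matrix.conjTranspose_conjTranspose,
              Matrix.mul_assoc]
        _ = _ := by rw [hU' k, Matrix.mul_one]
    rw [Finset.sum_congr rfl fun k _ => h1 k, ← Matrix.sum_mul, ← Matrix.mul_sum, hsum,
      Matrix.mul_one, hV]
  set x := Vᴴ *ᵥ ψ with hx
  have hw := weighted d hd T hT hTsum x
  have hTx : ∀ k, (U k)ᴴ *ᵥ (M k *ᵥ ψ) = T k *ᵥ x := by
    intro k
    rw [hx, hTU k, Matrix.mulVec_mulVec, Matrix.mulVec_mulVec]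
    congr 1
    calc (U k)ᴴ * M k = (U k)ᴴ * (M k * (V * Vᴴ)) := by rw [hV', Matrix.mul_one]
      _ = _ := by simp only [Matrix.mul_assoc]
  have hGψ : ∑ i, d i * Complex.normSq (x i) = m2 := by
    rw [hx, ← ev_dg, ← hGV, hGdef, ev_sum, Complex.re_sum, hm2]
    refine Finset.sum_congr rfl fun i _ => ?_
    rw [Complex.re_ofReal_mul, hμ]
    ring
  have hk : ∀ k, 2 * ∑ i, d i * Complex.normSq ((T k *ᵥ x) i) - prob (M k) ψ * m2 ≤
      ∑ i, (ev (g i) (M k *ᵥ ψ)).re ^ 2 / prob (M k) ψ := by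
    intro k
    have h1 : ∑ i, d i * Complex.normSq ((T k *ᵥ x) i) =
        ∑ i, (z k i * (((ev (g i) (M k *ᵥ ψ)).re : ℝ) : ℂ)).re := by
      rw [← hTx k, ← ev_dg, ← hz k, ev_sum, Complex.re_sum]
      refine Finset.sum_congr rfl fun i _ => ?_
      have him := ev_im (g i) (hherm i) (M k *ᵥ ψ)
      congr 2
      apply Complex.ext
      · simp
      · simp [him]
    rw [h1, ← hnormz k, Finset.mul_sum, Finset.mul_sum, ← Finset.sum_sub_distrib]
    exact Finset.sum_le_sum fun i _ => amgm _ _ (hp k) _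
  have hpsum : ∑ k, prob (M k) ψ = 1 := by
    have h1 := congrArg Complex.re (sum_inner M hsum ψ ψ)
    rw [hψ, Complex.re_sum, Complex.one_re] at h1
    rw [← h1]
    refine Finset.sum_congr rfl fun k _ => ?_
    unfold prob
    rw [← inner_mulVec]
  have hmain : m2 ≤ ∑ k, ∑ i, (ev (g i) (M k *ᵥ ψ)).re ^ 2 / prob (M k) ψ := by
    have h1 : ∑ k, (2 * ∑ i, d i * Complex.normSq ((T k *ᵥ x) i) - prob (M k) ψ * m2) ≤
        ∑ k, ∑ i, (ev (g i) (M k *ᵥ ψ)).re ^ 2 / prob (M k) ψ :=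
      Finset.sum_le_sum fun k _ => hk k
    rw [Finset.sum_sub_distrib, ← Finset.mul_sum, ← Finset.sum_mul, hpsum] at h1
    rw [hGψ] at hw
    linarith
  rw [purity_ketbra, Finset.sum_congr rfl fun k _ => prob_mul_purity g N (M k) ψ (hp k),
    ← Finset.mul_sum]
  exact mul_le_mul_of_nonneg_left hmain (by positivity)

end Pool.Agent.Results.MP_5b3ffa_mp.AveragePurityMonotone
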